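import Pool.Agent.Mg.F5cfbf6.Ga7960e
import Pool.Agent.Mg.F5cfbf6.G735941

set_option autoImplicit false

namespace Pool.Agent.Results.MP_5cfbf6_gt.Growth

open Pool.Agent.MP_5cfbf6_gt

theorem result : ∃ K D : ℕ, ∀ P : Set E3, IsPolytope P → IsSimple P →
    (∃ Q : Set E3, SameType P Q ∧ IsBest Q) → ∀ (F : twoFaces P) (m : ℕ),
    {G | (faceGraph P).edist F G ≤ m}.encard ≤ (K * (m + 1) ^ D : ℕ) := by
  obtain ⟨K, D, H⟩ := growth
  refine ⟨K, D, fun P hP hs hb F m => ?_⟩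
  obtain ⟨ι, _, _, u, Tr, C, φ, -⟩ := exists_crit hP hs hb
  have h1 := H ι u Tr C (φ F) m
  refine (Set.encard_le_encard_of_injOn (t := {j | (adjG Tr).edist (φ F) j ≤ m}) (f := φ)
    (fun G hG => ?_) φ.injective.injOn).trans ?_
  · simp only [Set.mem_ofPred_eq] at hG ⊢
    have hne : (faceGraph P).edist F G ≠ ⊤ := ne_top_of_le_ne_top (ENat.natCast_ne_top m) hG
    obtain ⟨w, hw⟩ := SimpleGraph.exists_walk_of_edist_ne_top hne
    refine (SimpleGraph.edist_le (w.map φ.toHom)).trans ?_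
    rw [SimpleGraph.Walk.length_map, hw]; exact hG
  · rw [← Set.Finite.cast_ncard_eq (Set.toFinite _)]
    exact_mod_cast h1

end Pool.Agent.Results.MP_5cfbf6_gt.Growth
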