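import Pool.Agent.Mg.F5cfbf6.G0949dc
import Pool.Agent.Mg.F5cfbf6.G735941

set_option autoImplicit false

namespace Pool.Agent.Results.MP_5cfbf6_gt.Separators

open Pool.Agent.MP_5cfbf6_gt

theorem result : ∃ K D : ℕ, ∀ P : Set E3, IsPolytope P → IsSimple P →
    (∃ Q : Set E3, SameType P Q ∧ IsBest Q) → ∀ (k : ℕ) (B : Set (twoFaces P)), B.encard ≤ k →
    ∃ E : Set (twoFaces P), E.encard ≤ (K * (k + 1) ^ D : ℕ) ∧ ∀ F G, F ∉ E → G ∉ E →
      ∃ w : (faceGraph P).Walk F G, ∀ H ∈ w.support, H ∉ B := by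
  obtain ⟨K, D, H⟩ := separators
  refine ⟨K, D, fun P hP hs hb k B hB => ?_⟩
  obtain ⟨ι, _, _, u, Tr, C, φ, -⟩ := exists_crit hP hs hb
  obtain ⟨E, hE, HE⟩ := H ι u Tr C k (φ '' B) (by
    have h1 : (φ '' B).encard ≤ k := (Set.encard_image_le _ _).trans hB
    rw [← Set.Finite.cast_ncard_eq (Set.toFinite _)] at h1
    exact_mod_cast h1)
  refine ⟨φ ⁻¹' E, ?_, fun F G hF hG => ?_⟩
  · refine (Set.encard_le_encard_of_injOn (t := E) (f := φ) (fun G hG => hG)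
      φ.injective.injOn).trans ?_
    rw [← Set.Finite.cast_ncard_eq (Set.toFinite _)]
    exact_mod_cast hE
  · obtain ⟨W, hW⟩ := HE (φ F) (φ G) hF hG
    refine ⟨(W.map φ.symm.toHom).copy (by simp) (by simp), fun X hX hXB => ?_⟩
    rw [SimpleGraph.Walk.support_copy, SimpleGraph.Walk.support_map, List.mem_map] at hX
    obtain ⟨l, hl, rfl⟩ := hX
    exact hW l hl ⟨_, hXB, by simp⟩

end Pool.Agent.Results.MP_5cfbf6_gt.Separators
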